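import Mathlib
import Pool.Agent.Work.MP_d87c46_gt.Defs
import Pool.Agent.Work.MP_d87c46_gt.Rot

open Pool.Agent.Work.MP_d87c46_gt

namespace Pool.Agent.Results.MP_d87c46_gt.RotatingWave

/-- For every `w ≠ 0` the metric
`g_w = (cos(w t) (x² - y²) - 2 sin(w t) x y) dt² + 2 dt dz + dx² + dy²` on `ℝ⁴` is Lorentzian, its
Weyl tensor vanishes nowhere, its space of almost Einstein scales is exactly two-dimensional, and
no point of `ℝ⁴` has a neighbourhood on which `g_w` is conformally isomorphic to an open subset of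
`(ℝ⁴, g_pp)`. -/
theorem result (w : ℝ) (hw : w ≠ 0) :
    IsLorentzianMetric (gRot w) ∧
    (∀ p : R4, WeylNonzeroAt (gRot w) p) ∧
    Module.finrank ℝ (almostEinsteinScales (gRot w)) = 2 ∧
    ∀ p : R4, ¬ ConformallyIsomorphicNear (gRot w) gpp p :=
  ⟨isLorentzian_ppWave _ (rot_smooth w),
    fun p => weylNonzero_ppWave _ (rot_smooth w) (rot_pd3 w) (rot_harm w) p (rot_weyl w p),
    finrank_ppWave _ (rot_smooth w) (rot_pd3 w) (rot_harm w) (rot_weyl w),
    rot_not_conformal hw⟩

end Pool.Agent.Results.MP_d87c46_gt.RotatingWave
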